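import Pool.Agent.H64.SmTrans

/-!
# Smith's conjecture on the topology of the Steiner minimal trees of a regular simplex
(MP_ebc12b_co, seat helper64)
-/

set_option autoImplicit false

namespace Pool.Agent.Results.MP_ebc12b_co.SmithConjecture

open Pool.Agent.H64.Smith

/-- For every `d ≥ 3` there is a Steiner minimal tree for the vertices `e_1, ..., e_d` of a regular
simplex, and every such tree is isomorphic to `T_d`. -/
theorem result (d : ℕ) (hd : 3 ≤ d) :
    (∃ (V : Type) (_ : Fintype V) (G : SimpleGraph V) (pos : V → EuclideanSpace ℝ (Fin d)),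
      IsSteinerMinimal G pos) ∧
    ∀ (V : Type) [Fintype V] (G : SimpleGraph V) (pos : V → EuclideanSpace ℝ (Fin d)),
      IsSteinerMinimal G pos → Nonempty (G ≃g smithTree d) :=
  ⟨Pool.Agent.H64.Sm.smith_exists hd, fun _ _ _ _ h => Pool.Agent.H64.Sm.smith hd h⟩

end Pool.Agent.Results.MP_ebc12b_co.SmithConjecture
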